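import Mathlib
import Pool.Agent.U462.Sh.ZAdm

set_option autoImplicit false

/-!
# Primes p in [N, 2N] with (p + 1) / 2 prime: every pattern of the scales is possible
-/

namespace Pool.Agent.Results.MP_39a890_nt.AnyPatternOfScales

open Finset Filter
open scoped Topology
open Pool.Agent.U462.Sh.Law

/-- the number of the `p` in `[N, 2 N]` for which `p` and `(p + 1) / 2` belong to `S`, counted by
`q = (p + 1) / 2`, `p = 2 q - 1` -/
noncomputable def pairs (S : Set ℕ) (N : ℕ) : ℕ :=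
  {q : ℕ | q ∈ S ∧ 2 * q - 1 ∈ S ∧ N ≤ 2 * q - 1 ∧ 2 * q - 1 ≤ 2 * N}.ncard

/-- **Every pattern of the scales is possible.** For every set `J` of natural numbers there is a set `S` of
rough numbers `≥ 2` for which `[N, 2 N]` contains no `p` with `p` and `(p + 1) / 2` in `S` if `N = 2 ^ j`,
`j` in `J`, while the number of these `p` tends to infinity for `N = 2 ^ j`, `j` outside `J`, and for which
the uniform Hardy–Littlewood law holds for all systems of linear forms and all intervals, except for those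
systems with two forms `l, 2 l - 1` for which `l` has in the interval a value `q` with
`2 ^ j ≤ 2 q - 1 < 2 ^ (j + 1)`, `j` in `J`. -/
theorem result : ∀ J : Set ℕ, ∃ S : Set ℕ, (∀ m ∈ S, 2 ≤ m ∧ Rough m) ∧
    (∀ j ∈ J, 1 ≤ j → pairs S (2 ^ j) = 0) ∧
    (∀ K : ℕ, ∃ j₀ : ℕ, ∀ j : ℕ, j₀ ≤ j → j ∉ J → K ≤ pairs S (2 ^ j)) ∧
    LawOn S (fun L u v => ∀ a b : ℤ, (a, b) ∈ L → (2 * a, 2 * b - 1) ∈ L → ∀ m : ℕ, u ≤ m → m < v →
      ∀ j ∈ J, ¬ (2 ^ j ≤ 2 * value (a, b) m - 1 ∧ 2 * value (a, b) m - 1 < 2 ^ (j + 1))) := by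
  classical
  intro J
  obtain ⟨S, h1, h2, h3⟩ := Pool.Agent.U462.Sh.affineOn 2 (-1) (by norm_num)
    {q | ∃ j ∈ J, 2 ^ j ≤ 2 * q - 1 ∧ 2 * q - 1 < 2 ^ (j + 1)}
  have hlaw : LawOn S (fun L u v => ∀ a b : ℤ, (a, b) ∈ L → (2 * a, 2 * b - 1) ∈ L → ∀ m : ℕ, u ≤ m → m < v →
      ∀ j ∈ J, ¬ (2 ^ j ≤ 2 * value (a, b) m - 1 ∧ 2 * value (a, b) m - 1 < 2 ^ (j + 1))) := by
    refine Pool.Agent.U462.Sh.on_mono ?_ h3
    rintro L u v hL ⟨a, b⟩ hl hl' m hm1 hm2 ⟨j, hj, h4⟩
    exact hL a b hl (by simpa [sub_eq_add_neg] using hl') m hm1 hm2 j hj h4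
  have hfin : ∀ N, {q : ℕ | q ∈ S ∧ 2 * q - 1 ∈ S ∧ N ≤ 2 * q - 1 ∧ 2 * q - 1 ≤ 2 * N}.Finite := fun N =>
    (Set.finite_Iic (N + 1)).subset (fun q hq => by
      have := hq.2.2.2
      simp only [Set.mem_Iic]
      omega)
  refine ⟨S, h1, ?_, ?_, hlaw⟩
  · intro j hj hj1
    unfold pairs
    rw [Set.ncard_eq_zero (hfin _)]
    ext q
    simp only [Set.mem_setOf_eq, Set.mem_empty_iff_false, iff_false]
    rintro ⟨h4, h5, h6, h7⟩
    have h8 : 2 ^ (j + 1) = 2 * 2 ^ j := by ring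
    have h9 := (h1 q h4).1
    apply h2 q ⟨j, hj, h6, by omega⟩ h4 _ h5
    rw [Nat.cast_sub (by omega)]
    push_cast
    ring
  · intro K
    obtain ⟨X0, hX0⟩ := Pool.Agent.U462.Sh.many hlaw {(1, 0), (2, -1)} Pool.Agent.U462.Sh.half_sys
      Pool.Agent.U462.Sh.half_adm (1 / 2) (by norm_num) K
    refine ⟨X0 + 5, ?_⟩
    intro j hj hjJ
    obtain ⟨i, rfl⟩ : ∃ i, j = i + 2 := ⟨j - 2, by omega⟩
    have hpow : X0 + 5 ≤ 2 ^ (i + 2) := hj.trans (Nat.lt_two_pow_self).le
    have e1 : 2 ^ (i + 2) = 4 * 2 ^ i := by ring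
    have e2 : 2 ^ (i + 2 + 1) = 8 * 2 ^ i := by ring
    have hi1 : 2 ≤ 2 ^ i := by
      calc 2 = 2 ^ 1 := by norm_num
        _ ≤ 2 ^ i := Nat.pow_le_pow_right (by norm_num) (by omega)
    refine (hX0 (2 ^ (i + 2) + 1) (by omega) (2 * 2 ^ i + 1) (2 ^ (i + 2) + 1) (by omega) le_rfl ?_ ?_ ?_).trans ?_
    · rw [← Real.sqrt_eq_rpow]
      apply Real.sqrt_le_iff.2
      rw [e1]
      have hiR : (2 : ℝ) ≤ 2 ^ i := by exact_mod_cast hi1
      push_cast
      constructor
      · linarith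
      · nlinarith
    · intro m hm1 hm2 l hl
      simp only [mem_insert, mem_singleton] at hl
      have : (2 : ℤ) ≤ m := by exact_mod_cast (by omega : 2 ≤ m)
      rcases hl with rfl | rfl
      · simp only; linarith
      · simp only; linarith
    · intro a b ha hb m hm1 hm2 j' hj' h4
      simp only [mem_insert, mem_singleton, Prod.mk.injEq] at ha hb
      have hab : a = 1 ∧ b = 0 := by omega
      obtain ⟨rfl, rfl⟩ := hab
      have e5 : value (1, 0) m = m := by simp [value]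
      rw [e5] at h4
      have h5 : i + 2 = j' := by
        apply le_antisymm
        · by_contra hcon
          have h6 : 2 ^ (j' + 1) ≤ 2 ^ (i + 2) := Nat.pow_le_pow_right (by norm_num) (by omega)
          omega
        · by_contra hcon
          have h6 : 2 ^ (i + 2 + 1) ≤ 2 ^ j' := Nat.pow_le_pow_right (by norm_num) (by omega)
          omega
      rw [h5] at hjJ
      exact hjJ hj'
    · unfold count pairs
      apply Set.ncard_le_ncard _ (hfin _)
      rintro m ⟨hm1, hm2, hall⟩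
      have h4 := hall (1, 0) (by simp)
      have h5 := hall (2, -1) (by simp)
      have e5 : value (1, 0) m = m := by simp [value]
      have e6 : value (2, -1) m = 2 * m - 1 := by
        unfold value
        omega
      rw [e5] at h4
      rw [e6] at h5
      exact ⟨h4, h5, by omega, by omega⟩

end Pool.Agent.Results.MP_39a890_nt.AnyPatternOfScales
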