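import Pool.Agent.U918.LP.Lin

/-!
# Primes `q` with `2 q - 1 + 2 h₁, …, 2 q - 1 + 2 h_r` prime, for almost all `h`, with arbitrary weights on the `q`

Let `w` be ANY bounded real weight on the primes `t ≤ X`, for example the indicator of an arbitrary set of them. For all but
a share `log ^ (-U) X` of the vectors `(h₁, …, h_r)` of integers `1 ≤ h_i ≤ B X`, the sum of `w t` over those `t` for
which all the numbers `2 t - 1 + 2 h_i` are prime is the sum of `w t ∏ 1 / (V z log (2 t - 1 + 2 h_i))` over those `t`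
for which all the numbers `2 t - 1 + 2 h_i` are free of primes `≤ z`, up to an error `X / log ^ D X`; here `z` is a power
of `log X`, `V z = ∏_{p ≤ z} (1 - 1/p)`, and this holds simultaneously for all initial intervals `t ≤ y`, `y ≤ X`, and
all residue classes of `t` to all moduli up to `log ^ K X`.

The primes `p ∈ [N, 2 N]` with `(p + 1) / 2` prime are the numbers `p = 2 t - 1` with `t` prime, `h = 0`, and
`(N + 1) / 2 ≤ t ≤ (2 N + 1) / 2`, a difference of two initial intervals.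
-/

set_option autoImplicit false

open Finset

namespace Pool.Agent.Results.MP_39a890_nt.ArbitraryWeights

/-- the product of `1 - 1/p` over the primes `p ≤ z` -/
noncomputable def V (z : ℕ) : ℝ := ∏ p ∈ (Icc 1 z).filter Nat.Prime, (1 - 1 / (p : ℝ))

/-- `t` is a prime -/
def IsPrime (t : ℕ) : Prop := t.Prime

open Classical in
/-- the sum of `w t` over the `t ≤ y`, `t ≡ a mod q`, with `IsPrime t`, for which all the numbers `2 t + 2 h i - 1` are
prime -/
noncomputable def primeSum {r : ℕ} (w : ℕ → ℝ) (h : Fin r → ℕ) (q a y : ℕ) : ℝ :=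
  ∑ t ∈ (Icc 1 y).filter (fun t => IsPrime t ∧ t ≡ a [MOD q] ∧ ∀ i, (2 * t + 2 * h i - 1).Prime), w t

open Classical in
/-- the sum of `w t / ∏ (V z · log (2 t + 2 h i - 1))` over the `t ≤ y`, `t ≡ a mod q`, with `IsPrime t`, for which no
prime `l ≤ z` divides any of the numbers `2 t + 2 h i - 1` -/
noncomputable def modelSum {r : ℕ} (z : ℕ) (w : ℕ → ℝ) (h : Fin r → ℕ) (q a y : ℕ) : ℝ :=
  ∑ t ∈ (Icc 1 y).filter (fun t => IsPrime t ∧ t ≡ a [MOD q] ∧ ∀ i, ∀ l : ℕ, l.Prime → l ≤ z → ¬ l ∣ 2 * t + 2 * h i - 1),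
    w t * ∏ i, (V z * Real.log ((2 * t + 2 * h i - 1 : ℕ) : ℝ))⁻¹

open Classical in
/-- **The theorem.** For all `r`, `B`, `U`, `D`, `K` there is `B₀` such that for every `E`, every large `X`, every
integer `z` with `log ^ B₀ X ≤ z ≤ log ^ E X` and EVERY weight `w` with `|w t| ≤ 1`: for all but at most
`X ^ r / log ^ U X` of the vectors `h` of integers `1 ≤ h i ≤ B X`, one has for all `y ≤ X`, all moduli
`1 ≤ q ≤ log ^ K X` and all classes `a` that `primeSum w h q a y` and `modelSum z w h q a y` differ by at most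
`X / log ^ D X`. -/
theorem result (r B U D K : ℕ) :
    ∃ B₀ : ℕ, ∀ E : ℕ, ∃ X₀ : ℕ, ∀ X : ℕ, X₀ ≤ X → ∀ z : ℕ, Real.log X ^ B₀ ≤ z → (z : ℝ) ≤ Real.log X ^ E →
    ∀ w : ℕ → ℝ, (∀ t, |w t| ≤ 1) →
    (((Fintype.piFinset (fun _ : Fin r => Icc 1 (B * X))).filter (fun h =>
      ∃ y ≤ X, ∃ q a : ℕ, 1 ≤ q ∧ (q : ℝ) ≤ Real.log X ^ K ∧
        (X : ℝ) / Real.log X ^ D < |primeSum w h q a y - modelSum z w h q a y|)).card : ℝ) ≤
      (X : ℝ) ^ r / Real.log X ^ U := by
  obtain ⟨B₀, h0⟩ := Pool.Agent.U918.LP.lin r IsPrime (fun _ => 2) (fun _ => 2) (fun _ => (-1))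
    (fun _ => by norm_num) (fun _ => by norm_num) (fun _ => by norm_num) B U D K
  refine ⟨B₀, fun E => ?_⟩
  obtain ⟨x0, hx0⟩ := h0 E
  refine ⟨x0, fun X hX z hz1 hz2 w hw => ?_⟩
  refine le_trans (le_of_eq ?_) (hx0 X hX z hz1 hz2 w hw)
  have ev : ∀ n h : ℕ, Pool.Agent.U918.LP.lv 2 2 (-1) n h = 2 * n + 2 * h - 1 := by
    intro n h
    unfold Pool.Agent.U918.LP.lv
    push_cast
    omega
  have e1 : ∀ (h : Fin r → ℕ) (q a y : ℕ), primeSum w h q a y =
      Pool.Agent.U918.LP.PL IsPrime (fun _ => 2) (fun _ => 2) (fun _ => (-1)) w h q a y := by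
    intro h q a y
    unfold primeSum Pool.Agent.U918.LP.PL
    simp only [ev]
  have e2 : ∀ (h : Fin r → ℕ) (q a y : ℕ), modelSum z w h q a y =
      Pool.Agent.U918.LP.ML IsPrime (fun _ => 2) (fun _ => 2) (fun _ => (-1)) z w h q a y := by
    intro h q a y
    unfold modelSum Pool.Agent.U918.LP.ML
    simp only [ev]
    rfl
  simp only [e1, e2]

end Pool.Agent.Results.MP_39a890_nt.ArbitraryWeights
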