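import Pool.Agent.U847.ChW
import Pool.Agent.U847.XR
import Pool.Agent.Results.MP_9f2731_nt.ChainsAnyLaw

/-!
# Primes `q` of an arbitrary dense set in the window `N ≤ 2 q - 1 ≤ 2 N` with `2 q - 1 + N_0` prime, for EVERY `N`, for almost all
multiples `N_0` of random integers with decaying characteristic functions

For every integer `N` and every dense set `Q` of primes `q` with `N ≤ 2 q - 1 ≤ 2 N` the number of the `q ∈ Q` for which
`p = 2 q - 1 + N_0` is a prime, and also `2 p - 1 + N_1` and so on. The even numbers are `N_j = h M (c_j + κ_j v_j)`, where the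
`v_j` are independent random integers with digits in base `b` whose characteristic functions
decay exponentially in the number of the digits at which the frequency is not near a rational number with a bounded denominator.

Method: the law `Pool.Agent.U847.XP.chain_law` (files `Pool.Agent.U847.XC` - `XN`), which allows any dense set of admissible
starting points, and the primes in progressions in the window (`Pool.Agent.U847.ChW`).
-/

set_option autoImplicit false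

namespace Pool.Agent.Results.MP_39a890_nt.DenseSetsInEveryWindow

open Finset

open Classical in
/-- the number of the positions `j < k` for which `M b^j θ` has distance at least `δ` from all the integers -/
noncomputable def farPos (b M k : ℕ) (δ θ : ℝ) : ℕ :=
  ((range k).filter (fun j : ℕ => ∀ n : ℤ, δ ≤ |(M : ℝ) * (b : ℝ) ^ j * θ - n|)).card

/-- a family of laws of random integers `0 ≤ v < b^k`: `C k p` says that the law `p` belongs to the family. The condition: the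
characteristic functions decay exponentially in the number of the far positions, `|E e(v θ)| ≤ (k+2)^T μ^farPos` for all `θ` -/
structure Decay (b M : ℕ) (C : ℕ → (ℕ → ℝ) → Prop) : Prop where
  nonneg : ∀ k p, C k p → ∀ v, 0 ≤ p v
  sum : ∀ k p, C k p → ∑ v ∈ range (b ^ k), p v = 1
  decay : ∀ δ : ℝ, 0 < δ → ∃ (μ : ℝ) (T : ℕ), 0 < μ ∧ μ < 1 ∧ ∀ k p, C k p → ∀ θ : ℝ,
    ‖∑ v ∈ range (b ^ k), (p v : ℂ) * Complex.exp (2 * Real.pi * Complex.I * (v * θ))‖ ≤ ((k : ℝ) + 2) ^ T * μ ^ farPos b M k δ θ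

/-- the product of `1 - 1/q` over the primes `q ≤ y` -/
noncomputable def V (y : ℕ) : ℝ := ∏ q ∈ (Icc 1 y).filter Nat.Prime, (1 - 1 / (q : ℝ))

/-- the multiple of the product of the primes `≤ y` given by the integers `h` and `c + κ v` -/
def Nv (y h : ℕ) (c κ : ℤ) (v : ℕ) : ℤ := ((primorial y * h : ℕ) : ℤ) * (c + κ * v)

/-- the sequence `x_0 = q`, `x_{j+1} = 2 x_j - 1 + N_j` -/
def chain {r : ℕ} (N : Fin r → ℤ) (q : ℤ) : ℕ → ℤ
  | 0 => q
  | j + 1 => 2 * chain N q j - 1 + (if h : j < r then N ⟨j, h⟩ else 0)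

/-- the primes `q` with `N ≤ 2 q - 1 ≤ 2 N` such that the numbers `2 ^ j * (q - 1) + 1`, `1 ≤ j ≤ s`, are prime to `D` -/
def Adm (D s N : ℕ) : Finset ℕ :=
  (Icc 1 N).filter (fun q : ℕ => q.Prime ∧ N ≤ 2 * q - 1 ∧ ∀ j ∈ Icc 1 s, (2 ^ j * (q - 1) + 1).Coprime D)

open Classical in
/-- the elements `q` of `Q` such that the terms `x_1, ..., x_t` of the sequence are primes -/
noncomputable def Good {r : ℕ} (Q : Finset ℕ) (N : Fin r → ℤ) (t : ℕ) : Finset ℕ :=
  Q.filter (fun q : ℕ => ∀ j ∈ Icc 1 t, (chain N q j).toNat.Prime)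

open Pool.Agent.U847.XP (orb Nr)

lemma chain_eq {r : ℕ} (N : Fin r → ℤ) (p : ℤ) (j : ℕ) : chain N p j = orb 2 (-1) (fun l => if h : l < r then N ⟨l, h⟩ else 0) p j := by
  induction j with
  | zero => rfl
  | succ j ih =>
    simp only [chain, orb]
    rw [ih]
    push_cast
    ring

lemma low (b : ℕ) (hb : 2 ≤ b) (r : ℕ) (J C K₁ : ℕ) : ∃ d₀ : ℕ, ∀ d : ℕ, d₀ ≤ d → ∀ y : ℕ, y ≤ K₁ * Real.log d →
    ∀ h : ℕ, 1 ≤ h → h ≤ d ^ J → ∀ N : ℕ, b ^ d ≤ N * d ^ C → N ≤ b ^ d * d ^ C →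
    (N : ℝ) ≤ (Adm (primorial y * h) r N).card * (d : ℝ) ^ (2 * K₁ + J + 3) := by
  obtain ⟨k₀, h0⟩ := Pool.Agent.U847.ChW.window_dense b C (2 * K₁ + J) hb
  refine ⟨max k₀ 3, fun d hd y hy h hh1 hh2 N hN1 hN2 => ?_⟩
  refine (h0 d (by omega) N hN1 hN2 (primorial y * h) (Nat.mul_pos (primorial_pos y) hh1)
    (Pool.Agent.N625.PT.mult_small K₁ J d y h (by omega) hy hh2) 1 (Nat.coprime_one_left _)).trans ?_
  refine mul_le_mul_of_nonneg_right (Nat.cast_le.2 (card_le_card ?_)) (by positivity)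
  intro q hq
  rw [mem_filter] at hq
  obtain ⟨g1, ⟨g2, g3⟩, g4⟩ := hq
  unfold Adm
  rw [mem_filter]
  refine ⟨g1, g2, g3, fun j _ => ?_⟩
  have hq1 : 1 ≤ q := g2.one_lt.le
  have h1 : (primorial y * h) ∣ (q - 1) := (Nat.modEq_iff_dvd' hq1).mp g4.symm
  obtain ⟨m, hm⟩ := h1
  rw [hm, show 2 ^ j * (primorial y * h * m) + 1 = 1 + (primorial y * h) * (2 ^ j * m) by ring]
  exact (Nat.coprime_add_mul_left_left _ _ _).mpr (Nat.coprime_one_left _)

open Classical in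
/-- Let `Cl j` be families of laws of random integers with digits in base `b`, `Decay b M₀ (Cl j)`, let `d` be large, and let
`v j < b ^ d` be independent random integers with laws in the families. Let `r ≥ 1`, `κ j ≠ 0` for `j < r`, `A`, `B`, `J`, `C`, `K₁`, `θ > 0` and `0 < ε ≤ 1` be fixed, let `y` be between `θ log d` and
`K₁ log d`, `M` the product of the primes `≤ y`, `1 ≤ h ≤ d ^ J`, `|c j| ≤ B b ^ d`,
`N_j = M h (c_j + κ_j v_j)`, and let `N` be ANY integer with `b ^ d ≤ N d ^ C`, `N ≤ b ^ d d ^ C`. The number of the primes `q` with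
`N ≤ 2 q - 1 ≤ 2 N` for which `2 ^ j * (q - 1) + 1` is prime to `M h` for `1 ≤ j ≤ r` is at least `N / d ^ (2 K₁ + J + 3)`. For EVERY set `Q` of
such primes with at least `N / d ^ A` elements: with a probability of at least `1 - ε`, if all the `N_j` are positive, then for
all `t ≤ r` the number of the `q ∈ Q` for which `x_1, ..., x_t` are primes is `|Q| / (V y log b ^ d) ^ t` up to a
relative error of at most `ε`, where `x_0 = q`, `x_{j+1} = 2 x_j - 1 + N_j`. -/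
theorem result (r : ℕ) (hr : 1 ≤ r) (b M₀ : ℕ) (hb : 2 ≤ b) (hM₀ : 1 ≤ M₀) (Cl : Fin r → ℕ → (ℕ → ℝ) → Prop)
    (hC : ∀ j, Decay b M₀ (Cl j)) (κ : Fin r → ℤ) (hκ : ∀ j, κ j ≠ 0) (A B J C K₁ : ℕ) (θ : ℝ) (hθ : 0 < θ) (ε : ℝ) (hε : 0 < ε)
    (hε1 : ε ≤ 1) :
    ∃ d₀ : ℕ, ∀ d : ℕ, d₀ ≤ d → ∀ μ : Fin r → ℕ → ℝ, (∀ j, Cl j d (μ j)) →
    ∀ y : ℕ, θ * Real.log d ≤ y → y ≤ K₁ * Real.log d → ∀ h : ℕ, 1 ≤ h → h ≤ d ^ J →
    ∀ N : ℕ, b ^ d ≤ N * d ^ C → N ≤ b ^ d * d ^ C → ∀ c : Fin r → ℤ, (∀ j, |c j| ≤ B * (b : ℤ) ^ d) →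
      ((N : ℝ) ≤ (Adm (primorial y * h) r N).card * (d : ℝ) ^ (2 * K₁ + J + 3)) ∧
      ∀ Q ⊆ Adm (primorial y * h) r N, (N : ℝ) ≤ Q.card * (d : ℝ) ^ A →
      ∑ v ∈ Fintype.piFinset (fun _ : Fin r => range (b ^ d)), (if ((∀ j, 0 < Nv y h (c j) (κ j) (v j)) → ∀ t ≤ r,
          |((Good Q (fun j => Nv y h (c j) (κ j) (v j)) t).card : ℝ) - Q.card / (V y * (d * Real.log b)) ^ t| ≤
            ε * (Q.card / (V y * (d * Real.log b)) ^ t))
        then 0 else ∏ j, μ j (v j)) ≤ ε := by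
  have hD : ∀ j, Pool.Agent.U847.XR.Decay b M₀ (Cl j) := fun j => ⟨(hC j).nonneg, (hC j).sum, (hC j).decay⟩
  obtain ⟨d1, h1⟩ := Pool.Agent.U847.XP.chain_law b _ hb r Cl (fun j => (hD j).scls hb hM₀) κ hκ 2 (-1) (by norm_num) (by norm_num)
    B J A C K₁ θ hθ ε hε hε1
  obtain ⟨d2, h2⟩ := low b hb r J C K₁
  refine ⟨max d1 d2, fun d hd μ hμ y hy1 hy2 h hh1 hh2 N hN1 hN2 c hc => ⟨h2 d (by omega) y hy2 h hh1 hh2 N hN1 hN2, ?_⟩⟩
  intro Q hQ hQA
  have h3 := h1 d (by omega) μ hμ y hy1 hy2 c hc h hh1 hh2 N hN1 hN2 r hr le_rfl Q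
    (fun q hq => (mem_filter.1 (hQ hq)).1)
    (fun q hq j hj1 hj2 => by
      have g1 := mem_filter.1 (hQ hq)
      have hq1 : 1 ≤ q := (mem_Icc.1 g1.1).1
      rw [Pool.Agent.Results.MP_9f2731_nt.ChainsAnyLaw.orb_zero q hq1, Nat.isCoprime_iff_coprime]
      exact g1.2.2.2 j (mem_Icc.2 ⟨hj1, hj2⟩)) hQA
  refine le_trans (le_of_eq ?_) h3
  apply sum_congr rfl
  intro v _
  have e : ∀ t : ℕ, Good Q (fun j => Nv y h (c j) (κ j) (v j)) t =
      Q.filter (fun i : ℕ => ∀ j : ℕ, 1 ≤ j → j ≤ t → (orb 2 (-1) (Nr y h c κ v) (i : ℤ) j).toNat.Prime) := by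
    intro t
    unfold Good
    ext q
    rw [@mem_filter _ _ (_) _ _, @mem_filter _ _ (_) _ _]
    apply and_congr_right
    intro _
    have e2 : ∀ j, chain (fun j => Nv y h (c j) (κ j) (v j)) (q : ℤ) j = orb 2 (-1) (Nr y h c κ v) (q : ℤ) j :=
      fun j => chain_eq _ _ _
    constructor
    · intro g j hj1 hj2
      rw [← e2]
      exact g j (mem_Icc.2 ⟨hj1, hj2⟩)
    · intro g j hj
      rw [e2]
      exact g j (mem_Icc.1 hj).1 (mem_Icc.1 hj).2
  simp only [e]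
  congr!

end Pool.Agent.Results.MP_39a890_nt.DenseSetsInEveryWindow
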