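import Pool.Agent.U832.RG.Mix
import Pool.Agent.U832.RG.FixedPrime
import Pool.Agent.U832.RH.GeF

/-!
# The primes `q` for which `2 q - 1` is almost prime, and the process around them

Let `S` be the set of the `n` for which neither `n` nor `2 n - 1` has a prime factor `≤ x ^ (1 / r)`. Around the PRIMES in
`S`, that is around the primes `q` for which `2 q - 1` has no prime factor `≤ x ^ (1 / r)`, the elements of `S` form a
Poisson process: the numbers of elements of `S` in disjoint windows are independent Poisson variables. The same holds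
around arbitrary elements of `S`, around arbitrary integers, and around the `n` for which `n (2 n - 1)` has at most `R`
prime factors, all `> x ^ w` (`R` and `w` do not depend on the windows), there in all intervals of length `≥ x ^ θ`.
-/

set_option autoImplicit false

namespace Pool.Agent.Results.MP_39a890_nt.PoissonProcess

open Finset Filter Pool.Agent.U832.RG Pool.Agent.U832.RH

/-- The product of the numbers `n` and `2 n - 1` (and `0` for `n = 0`). -/
def values (n : ℕ) : ℕ := n * (2 * n - 1)

section aux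

open Polynomial Pool.Agent.Y879.GL
open Pool.Agent.W123.RU.Poly (Sys)

/-- the second polynomial -/
noncomputable def f1 : ℤ[X] := C 2 * X + C (-1)

lemma f1_eval (x : ℤ) : f1.eval x = 2 * x - 1 := by
  simp [f1]
  ring

lemma f1_deg : f1.natDegree = 1 := natDegree_linear (by norm_num)

lemma f1_lead : f1.leadingCoeff = 2 := leadingCoeff_linear (by norm_num)

lemma f1_irr : Irreducible f1 := by
  have hprim : f1.IsPrimitive := by
    intro r hr
    have h1 : r ∣ f1.coeff 0 := (C_dvd_iff_dvd_coeff r f1).1 hr 0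
    have h3 : f1.coeff 0 = -1 := by simp [f1]
    rw [h3, dvd_neg] at h1
    exact isUnit_of_dvd_one h1
  rw [IsPrimitive.Int.irreducible_iff_irreducible_map_cast hprim]
  apply irreducible_of_degree_eq_one
  rw [degree_map_eq_of_injective (RingHom.injective_int _)]
  exact degree_linear (by norm_num)

/-- the system -/
noncomputable def F : Fin 2 → ℤ[X] := ![X, f1]

lemma sys : Sys F where
  irr i := by
    fin_cases i
    · exact irreducible_X
    · exact f1_irr
  deg i := by
    fin_cases i
    · simp [F]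
    · show 0 < f1.natDegree
      rw [f1_deg]
      norm_num
  lead i := by
    fin_cases i
    · simp [F]
    · show 0 < f1.leadingCoeff
      rw [f1_lead]
      norm_num
  inj i j h := by
    by_contra hij
    have h3 : (i = 0 ∧ j = 1) ∨ (i = 1 ∧ j = 0) := by omega
    have h4 := congrArg leadingCoeff h
    rcases h3 with ⟨rfl, rfl⟩ | ⟨rfl, rfl⟩
    · change (X : ℤ[X]).leadingCoeff = f1.leadingCoeff at h4
      rw [leadingCoeff_X, f1_lead] at h4
      omega
    · change f1.leadingCoeff = (X : ℤ[X]).leadingCoeff at h4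
      rw [leadingCoeff_X, f1_lead] at h4
      omega
  adm p hp := by
    refine ⟨1, fun i hi => ?_⟩
    have h1 : (p : ℤ) ∣ ((1 : ℕ) : ℤ) := by
      fin_cases i
      · simpa [F] using hi
      · change (p : ℤ) ∣ f1.eval ((1 : ℕ) : ℤ) at hi
        rw [f1_eval] at hi
        simpa using hi
    exact hp.one_lt.ne' (Nat.dvd_one.1 (Int.natCast_dvd_natCast.1 h1))

lemma noshift : NoShift F := by
  intro i j t ht h1
  by_cases hij : i = j
  · subst hij
    exact no_self (F i) (sys.deg i).ne' t (by exact_mod_cast (by omega : t ≠ 0)) h1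
  · have h3 : (i = 0 ∧ j = 1) ∨ (i = 1 ∧ j = 0) := by omega
    have hlc : ∀ g : ℤ[X], (g.comp (X + C (t : ℤ))).leadingCoeff = g.leadingCoeff := by
      intro g
      rw [leadingCoeff_comp (by rw [natDegree_X_add_C]; norm_num), leadingCoeff_X_add_C, one_pow, mul_one]
    obtain ⟨u, hu⟩ := h1
    have h4 := congrArg leadingCoeff hu
    rw [leadingCoeff_mul, hlc] at h4
    obtain ⟨r, hr, hr2⟩ := Polynomial.isUnit_iff.1 u.isUnit
    rw [← hr2, leadingCoeff_C] at h4
    rcases Int.isUnit_iff.1 hr with hr | hr <;> subst hr <;> rcases h3 with ⟨rfl, rfl⟩ | ⟨rfl, rfl⟩ <;>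
      simp only [F, Matrix.cons_val_zero, Matrix.cons_val_one, leadingCoeff_X, f1_lead] at h4 <;> omega

lemma g_eq (n : ℕ) : (values n : ℤ) = ∏ i, (F i).eval (n : ℤ) := by
  rw [Fin.prod_univ_two]
  show (values n : ℤ) = (X : ℤ[X]).eval (n : ℤ) * f1.eval (n : ℤ)
  rw [f1_eval, eval_X]
  rcases Nat.eq_zero_or_pos n with h | h
  · subst h
    simp [values]
  · unfold values
    have h1 : 1 ≤ 2 * n := by omega
    rw [Nat.cast_mul, Nat.cast_sub h1]
    push_cast
    ring

lemma base : ∃ i, ∀ n : ℕ, (F i).eval (n : ℤ) = n := by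
  refine ⟨0, fun n => ?_⟩
  show (X : ℤ[X]).eval (n : ℤ) = n
  rw [eval_X]

lemma g_le : ∀ᶠ x : ℕ in atTop, ∀ n ≤ x, values n ≤ x ^ 3 := by
  filter_upwards [eventually_ge_atTop 2] with x hx n hn
  unfold values
  calc n * (2 * n - 1) ≤ x * (2 * x) := Nat.mul_le_mul hn (by omega)
    _ ≤ x * (x * x) := Nat.mul_le_mul_left _ (Nat.mul_le_mul_right _ hx)
    _ = x ^ 3 := by ring

end aux

/-- Let `θ, η > 0`, `0 < δ ≤ 1`. There are `w > 0` and `R`, such that for all `J`, `L`, `x₀`, all `ε > 0` and all large
`r`: for all large `x`, with `y = ⌊x ^ (1 / r)⌋`, `z = ⌊x ^ w⌋`, and all `T` with `T V ≤ x₀`, `V = V values y`, the set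
`Rough values y` of the `n` for which neither `n` nor `2 n - 1` has a prime factor `≤ y` satisfies:
(1) `PrimeLaw` for all `X ≥ x ^ θ` and all `(Z, Z + Y]` with `δ X ≤ Z`, `δ X ≤ Y`, `Z + Y ≤ X`: for all disjoint
windows `(a j, b j] ⊆ (0, T]`, `j < J`, all `s ≤ T` outside of them and all `k j ≤ L`, the number of the `n` in
`(Z, Z + Y]` for which `n + s` is a PRIME in `Rough values y` and exactly `k j` elements of `Rough values y` lie in
`(n + a j, n + b j]` for all `j` is `Y V / (mertens y * log X) Π` up to `ε Y V / (mertens y * log X)`, where `Π` is the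
product of the probabilities that a Poisson variable of mean `(b j - a j) V` has the value `k j`. (For `J = 0` this
is the number of the primes `q` for which `2 q - 1` has no prime factor `≤ y`.)
(2) `PoissonLaw` for ALL intervals `(Z, Z + Y]` with `Y ≥ x ^ θ`: the same for arbitrary elements `n + s` of
`Rough values y`, with `Y V` instead of `Y V / (mertens y * log X)`, and for arbitrary integers `n`, with `Y`.
(3) `CentreLaw` if moreover `Z + Y + T ≤ x`: the number of the `n` in `(Z, Z + Y]` for which `n + s` is in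
`Almost values R z` (the product of `n + s` and the other value at `n + s` has at most `R` prime factors, all `> z`),
with the same windows, is `Y W Π` up to `(η Π + ε) Y W`, `W = V values z`. -/
theorem result (θ δ η : ℝ) (hθ : 0 < θ) (hδ : 0 < δ) (hδ1 : δ ≤ 1) (hη : 0 < η) :
    ∃ w : ℝ, 0 < w ∧ ∃ R : ℕ, ∀ (J L : ℕ) (x₀ ε : ℝ), 0 < ε → ∃ r₀ : ℕ, ∀ r : ℕ, r₀ ≤ r → ∀ᶠ x : ℕ in atTop,
      ∀ y z : ℕ, y = ⌊(x : ℝ) ^ (1 / (r : ℝ))⌋₊ → z = ⌊(x : ℝ) ^ w⌋₊ → ∀ T : ℕ, T * V values y ≤ x₀ →
        (∀ X Z Y : ℕ, (x : ℝ) ^ θ ≤ X → δ * X ≤ Z → δ * X ≤ Y → Z + Y ≤ X →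
          PrimeLaw (Rough values y) (V values y) y J L ε X Z Y T) ∧
        ∀ Z Y : ℕ, (x : ℝ) ^ θ ≤ Y → PoissonLaw (Rough values y) (V values y) J L ε Z Y T ∧
          (Z + Y + T ≤ x →
            CentreLaw (Almost values R z) (Rough values y) (V values z) (V values y) J L η ε Z Y T) :=
  fixed_primeG F sys (by norm_num) noshift base values g_eq 3 g_le θ δ η hθ hδ hδ1 hη

end Pool.Agent.Results.MP_39a890_nt.PoissonProcess
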