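import Mathlib
import Pool.Agent.U364.RP.Sys

/-!
# The distribution of the primes `q` with `2 q - 1` prime around most of their elements, at all scales

Let `R r` be the set of the `m` for which all prime factors of `m` and of `2 m - 1` are larger than `m ^ (1 / r)`; it contains the
set `Sol` of all primes `q` with `2 q - 1` prime. For every `0 < θ ≤ 1` and all large `r`: every `(X, 2 X]`
contains at least `κ X / log ^ 2 X` PRIMES `p` of `R r` for which `2 p - 1` has at most `r` prime factors; for EVERY subset `A` of `R r` and every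
interval `(X, X + Y]`, `X ^ θ ≤ Y ≤ X / 2`, all but at most `ε Y / log ^ 2 X` of the elements of `A` in it are regular points of `A`.
So, if a set `P` of primes `q` with `2 q - 1` prime has at least `κ Y / log ^ 2 X` elements in `(X, X + Y]`, then all of them
but a proportion `ε` are regular points of `P` and have neighbours in `P` on both sides at distance at most `C log ^ 2 X`.

Definitions (`Pool.Agent.U364.RP`): `N A a b` is the number of the elements of `A` in `(a, b]`; `Regular A k c δ B X Y` is the set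
of the regular points of `A`: the elements `m` of `A` such that all intervals `(m - s, m + t]` with `s, t ≤ Y` and
`s + t ≥ log ^ k X / c` contain between `c (s + t) / log ^ k X` and `(s + t) / (c log ^ k X)` elements of `A`, and that `A` has
constant density on both sides of `m` up to `δ` at all dyadic scales up to `Y` with at most `B` exceptions; `Near P k c C δ B X Y`
is the set of the regular points of `P` with neighbours in `P` on both sides at distance at most `C log ^ k X`.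

Proof: the theorem on regular points (starting files, `Pool.Agent.TH977.PW`) for these polynomials.
-/

set_option autoImplicit false

namespace Pool.Agent.Results.MP_39a890_nt.RegularPrimes

open Filter
open Pool.Agent.U364.RP (N Regular Near)

/-- the value -/
def val (m : ℕ) : ℕ := 2 * m - 1

/-- All prime factors of `m` and of `val m` are larger than `m ^ (1 / r)`. -/
def R (r : ℕ) : Set ℕ := {m | (∀ p : ℕ, p.Prime → p ∣ m → (m : ℝ) ^ (1 / (r : ℝ)) < (p : ℝ)) ∧
  ∀ p : ℕ, p.Prime → p ∣ val m → (m : ℝ) ^ (1 / (r : ℝ)) < (p : ℝ)}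

/-- the primes `p` of `R r` for which `val p` has at most `r` prime factors, counted with multiplicity -/
def Al (r : ℕ) : Set ℕ := {p | p.Prime ∧ p ∈ R r ∧ (val p).primeFactorsList.length ≤ r}

/-- the primes `p` with prime `val p` -/
def Sol : Set ℕ := {p | p.Prime ∧ (val p).Prime}

/-- **Regular points and neighbours.** -/
theorem result (θ : ℝ) (hθ : 0 < θ) (hθ1 : θ ≤ 1) :
    (∃ r₀ : ℕ, 2 ≤ r₀ ∧ ∀ r : ℕ, r₀ ≤ r → Sol ⊆ R r ∧
      (∃ κ : ℝ, 0 < κ ∧ ∀ᶠ X : ℕ in atTop, κ * X / Real.log X ^ 2 ≤ N (Al r) X (2 * X)) ∧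
      ∀ ε : ℝ, 0 < ε → ∃ c : ℝ, 0 < c ∧ ∀ δ : ℝ, 0 < δ → ∃ B : ℕ,
        ∀ᶠ X : ℕ in atTop, ∀ Y : ℕ, (X : ℝ) ^ θ ≤ Y → 2 * Y ≤ X → ∀ A : Set ℕ, A ⊆ R r →
          (N {m | m ∈ A ∧ m ∉ Regular A 2 c δ B X Y} X (X + Y) : ℝ) ≤ ε * Y / Real.log X ^ 2) ∧
    ∀ κ ε : ℝ, 0 < κ → 0 < ε → ∃ c C : ℝ, 0 < c ∧ 0 < C ∧ ∀ δ : ℝ, 0 < δ → ∃ B : ℕ,
      ∀ᶠ X : ℕ in atTop, ∀ Y : ℕ, (X : ℝ) ^ θ ≤ Y → 2 * Y ≤ X → ∀ P : Set ℕ, P ⊆ Sol →
        κ * Y / Real.log X ^ 2 ≤ N P X (X + Y) →
        (1 - ε) * N P X (X + Y) ≤ N (Near P 2 c C δ B X Y) X (X + Y) := by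
  have hadm : ∀ p : ℕ, p.Prime → ∃ m : ℕ, ¬ p ∣ m ∧ ∀ _ : Fin 1, ¬ (p : ℤ) ∣ (Pool.Agent.W182.PW.lin 2 (-1)).eval (m : ℤ) := by
    intro p hp
    refine ⟨1, fun h => hp.one_lt.ne' (Nat.dvd_one.1 h), fun _ hd => ?_⟩
    rw [Pool.Agent.W182.PW.lin_eval] at hd
    norm_num at hd
    exact hp.one_lt.ne' (by exact_mod_cast Int.eq_one_of_dvd_one (Int.natCast_nonneg p) hd)
  refine Pool.Agent.U364.RP.genp (fun _ : Fin 1 => Pool.Agent.W182.PW.lin 2 (-1))
    (fun _ => Pool.Agent.W182.PW.lin_irr 2 (-1) (by norm_num) (by rw [Int.isCoprime_iff_gcd_eq_one]; norm_num))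
    (fun _ => Pool.Agent.W182.PW.lin_deg 2 (-1) (by norm_num)) (fun _ => Pool.Agent.W182.PW.lin_lead 2 (-1) (by norm_num))
    (fun _ _ _ => Subsingleton.elim _ _) (fun _ => Pool.Agent.W182.PW.lin_ne_X (by norm_num)) hadm (fun _ => val)
    (fun _ m => ?_) Sol R Al (fun r m hm => ⟨hm.1, fun _ => hm.2⟩)
    (fun r m h2r hm h1 h2 => ⟨hm, ⟨fun p hp hd => Pool.Agent.TH977.PW.rpow_lt_dvd r m p h2r hm hp hd, h1 0⟩, h2 0⟩)
    (fun r hr m hm => ⟨fun p hp hd => Pool.Agent.TH977.PW.rpow_lt_dvd r m p hr hm.1 hp hd, fun p hp hd => ?_⟩) 2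
    (by rw [Fintype.card_fin]) θ hθ hθ1
  · rw [Pool.Agent.W182.PW.lin_eval]
    rcases Nat.eq_zero_or_pos m with h | h
    · right
      subst h
      exact ⟨by omega, rfl⟩
    · left
      unfold val
      have h5 : 1 ≤ 2 * m := by omega
      push_cast [h5]
      ring
  · refine Pool.Agent.U364.RP.rough_of_prime r m (val m) p hr hm.2 ?_ hp hd
    unfold val
    have h7 := hm.1.one_lt
    omega

end Pool.Agent.Results.MP_39a890_nt.RegularPrimes
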